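import Pool.Agent.W214.EX.Avx2

/-!
Project EY (helper251), AVX: the mean over the primes, for most scales.
-/

set_option autoImplicit false

namespace Pool.Agent.W214.EX

open Finset Filter
open Pool.Agent.H376R2.MR (FK)
open Pool.Agent.W78.GA (Qd nm prim dt ip lat ball pball edge dedge)
open Pool.Agent.W78.EC (Gi cone cw PQ SP th good InG TT res av Tr)
open Pool.Agent.W251.GX (Cm)
open Pool.Agent.W251.EX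
open Pool.Agent.W78.EC.Fx
open Pool.Agent.W540.EC

theorem unif2 {ι : Type} (T : Finset ι) (P : ι → ℕ → ℝ → Prop)
    (h : ∀ c ∈ T, ∃ Q₀ : ℕ, ∀ Q : ℕ, Q₀ ≤ Q → ∃ X₀ : ℝ, ∀ X : ℝ, X₀ ≤ X → P c Q X) :
    ∃ Q₀ : ℕ, ∀ Q : ℕ, Q₀ ≤ Q → ∃ X₀ : ℝ, ∀ X : ℝ, X₀ ≤ X → ∀ c ∈ T, P c Q X := by
  classical
  induction T using Finset.induction_on with
  | empty => exact ⟨0, fun Q _ => ⟨0, fun X _ c hc => absurd hc (notMem_empty c)⟩⟩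
  | insert a T ha ih =>
    obtain ⟨Qa, hQa⟩ := h a (mem_insert_self a T)
    obtain ⟨Qb, hQb⟩ := ih fun c hc => h c (mem_insert_of_mem hc)
    refine ⟨max Qa Qb, fun Q hQ => ?_⟩
    obtain ⟨Xa, hXa⟩ := hQa Q ((le_max_left _ _).trans hQ)
    obtain ⟨Xb, hXb⟩ := hQb Q ((le_max_right _ _).trans hQ)
    refine ⟨max Xa Xb, fun X hX c hc => ?_⟩
    rcases mem_insert.mp hc with h1 | h1
    · rw [h1]
      exact hXa X ((le_max_left _ _).trans hX)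
    · exact hXb X ((le_max_right _ _).trans hX) c h1

theorem avx (hz : S_ZX) (hp : S_PERX) (hd : Pool.Agent.W78.EC.S_DCP)
    (hl : Pool.Agent.W78.EC.S_LOSS) (hc : Pool.Agent.W78.EC.S_PCNT) :
    Pool.Agent.W251.EX.S_AVX := by
  classical
  intro N τ F₁ F₂ hPr q hq hBt R hR s₁ s₂ s₃ s₄ hs₁ hs₁₂ hs₂ hs₃ hs₃₄ hs₄ ε hε Q₁'
  obtain ⟨c, C, hc0, Qc, hQc⟩ := hc
  obtain ⟨nC, hnC⟩ : ∃ nC : ℝ, nC = ((Cs q).card : ℝ) := ⟨_, rfl⟩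
  have hnC0 : 0 ≤ nC := by rw [hnC]; exact Nat.cast_nonneg _
  obtain ⟨εD, hεD⟩ : ∃ x : ℝ, x = ε / (16 * (nC + 1)) := ⟨_, rfl⟩
  obtain ⟨εB, hεB⟩ : ∃ x : ℝ, x = ε / (64 * (nC + 1)) := ⟨_, rfl⟩
  obtain ⟨εL, hεL⟩ : ∃ x : ℝ, x = ε / (32 * (|C| + 1)) := ⟨_, rfl⟩
  have hεD0 : 0 < εD := by rw [hεD]; positivity
  have hεB0 : 0 < εB := by rw [hεB]; positivity
  have hεL0 : 0 < εL := by rw [hεL]; positivity
  obtain ⟨s, hs⟩ : ∃ s : ℝ, s = min s₁ s₃ := ⟨_, rfl⟩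
  have hs0 : 0 < s := by rw [hs]; exact lt_min hs₁ hs₃
  have hss1 : s ≤ s₁ := by rw [hs]; exact min_le_left _ _
  have hss3 : s ≤ s₃ := by rw [hs]; exact min_le_right _ _
  obtain ⟨K₀, hK₀⟩ := hl s εL hs0 hεL0
  obtain ⟨K, hKd⟩ : ∃ K : ℕ, K = max K₀ 1 := ⟨_, rfl⟩
  have hK : 1 ≤ K := by rw [hKd]; exact le_max_right _ _
  obtain ⟨κ, hκ, hκ'⟩ := hK₀ K (by rw [hKd]; exact le_max_left _ _)
  obtain ⟨QL, hQL⟩ := hκ' κ hκ le_rfl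
  obtain ⟨B, hB⟩ := hz K κ hK hκ
  obtain ⟨QB, hQB⟩ := unif2 (Cs q) (fun c Q X => ∀ α : Gi → ℝ, (∀ z, |α z| ≤ 1) →
      (∀ z, α z ≠ 0 → s₁ * X < (nm z : ℝ)) →
      |∑ e ∈ good K κ Q X, ∑ v ∈ cone X e.1 e.2, ∑ w ∈ cw X s₃ s₄ e.1 e.2,
        α v * cl q (rp c) (fun z => (F₂ z).re) w * th Q (dt v w)| ≤ εB * X * Q ∧
      |∑ e ∈ good K κ Q X, ∑ v ∈ cone X e.1 e.2, ∑ w ∈ cw X s₃ s₄ e.1 e.2,
        α v * cl q (rp c) (fun z => (F₂ z).im) w * th Q (dt v w)| ≤ εB * X * Q) (by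
    intro c _
    obtain ⟨Qa, hQa⟩ := (hBt (rp c)).1 K κ s₁ s₃ s₄ εB hK hκ hs₁ hs₃ hs₃₄ hs₄ hεB0
    obtain ⟨Qb, hQb⟩ := (hBt (rp c)).2 K κ s₁ s₃ s₄ εB hK hκ hs₁ hs₃ hs₃₄ hs₄ hεB0
    refine ⟨max Qa Qb, fun Q hQ => ?_⟩
    obtain ⟨Xa, hXa⟩ := hQa Q ((le_max_left _ _).trans hQ)
    obtain ⟨Xb, hXb⟩ := hQb Q ((le_max_right _ _).trans hQ)
    exact ⟨max Xa Xb, fun X hX α a1 a2 => ⟨hXa X ((le_max_left _ _).trans hX) α a1 a2,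
      hXb X ((le_max_right _ _).trans hX) α a1 a2⟩⟩)
  obtain ⟨Q₁, hQ₁⟩ : ∃ Q₁ : ℕ, Q₁ = Q₁' + Qc + QL + QB + (⌊(K : ℝ) / κ⌋₊ + 1) + q + 1 :=
    ⟨_, rfl⟩
  obtain ⟨Q₂, X₀, N₀, hD⟩ := hd (Lab N q) K B εD hK hεD0 Q₁
  -- thresholds
  have hXL : ∀ Q : ℕ, ∃ X₁ : ℝ, Q₁ ≤ Q → ∀ X : ℝ, X₁ ≤ X → ∀ p ∈ PQ Q, ∀ π : Gi, nm π = p →
    (((dedge 0 1 (X / p)).filter (fun e => 0 < ip e.1 e.2 ∧ s * (X / p) < (nm e.1 : ℝ) ∧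
      s * (X / p) < (nm e.2 : ℝ) ∧ ¬ InG K κ Q X π e)).card : ℝ) ≤ εL * (X / p) := by
    intro Q
    by_cases hQ : Q₁ ≤ Q
    · obtain ⟨X₁, hX₁⟩ := hQL Q (by omega)
      exact ⟨X₁, fun _ => hX₁⟩
    · exact ⟨0, fun h => absurd h hQ⟩
  have hXB : ∀ Q : ℕ, ∃ X₁ : ℝ, Q₁ ≤ Q → ∀ X : ℝ, X₁ ≤ X → ∀ c ∈ Cs q, ∀ α : Gi → ℝ,
      (∀ z, |α z| ≤ 1) → (∀ z, α z ≠ 0 → s₁ * X < (nm z : ℝ)) →
      |∑ e ∈ good K κ Q X, ∑ v ∈ cone X e.1 e.2, ∑ w ∈ cw X s₃ s₄ e.1 e.2,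
        α v * cl q (rp c) (fun z => (F₂ z).re) w * th Q (dt v w)| ≤ εB * X * Q ∧
      |∑ e ∈ good K κ Q X, ∑ v ∈ cone X e.1 e.2, ∑ w ∈ cw X s₃ s₄ e.1 e.2,
        α v * cl q (rp c) (fun z => (F₂ z).im) w * th Q (dt v w)| ≤ εB * X * Q := by
    intro Q
    by_cases hQ : Q₁ ≤ Q
    · obtain ⟨X₁, hX₁⟩ := hQB Q (by omega)
      exact ⟨X₁, fun _ => hX₁⟩
    · exact ⟨0, fun h => absurd h hQ⟩
  choose XL hXL' using hXL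
  choose XB hXB' using hXB
  have hpi : ∀ p : ℕ, ∃ πr : Gi × ℤ, p.Prime → p % 4 = 1 →
      nm πr.1 = p ∧ lat p πr.2 πr.1 ∧ (p : ℤ) ∣ πr.2 ^ 2 + 1 := by
    intro p
    by_cases hp : p.Prime ∧ p % 4 = 1
    · obtain ⟨π, r, h⟩ := exists_pi hp.1 hp.2
      exact ⟨(π, r), fun _ _ => h⟩
    · exact ⟨(0, 0), fun ha hb => absurd ⟨ha, hb⟩ hp⟩
  choose πr hπr using hpi
  obtain ⟨X₁, hX₁⟩ : ∃ X₁ : ℕ, X₁ = X₀ + ∑ Q ∈ Icc Q₁ Q₂,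
      (⌈XL Q⌉₊ + ⌈XB Q⌉₊ + 2 * (K * Q)) := ⟨_, rfl⟩
  have hX₁' : ∀ Q : ℕ, Q₁ ≤ Q → Q ≤ Q₂ → XL Q ≤ X₁ ∧ XB Q ≤ X₁ ∧ 2 * (K * Q : ℝ) ≤ X₁ := by
    intro Q ha hb
    have h : ⌈XL Q⌉₊ + ⌈XB Q⌉₊ + 2 * (K * Q) ≤ X₁ := by
      have := single_le_sum (f := fun Q => ⌈XL Q⌉₊ + ⌈XB Q⌉₊ + 2 * (K * Q))
        (fun _ _ => Nat.zero_le _) (mem_Icc.2 ⟨ha, hb⟩)
      omega
    have h' : ((⌈XL Q⌉₊ : ℝ) + ⌈XB Q⌉₊ + 2 * (K * Q)) ≤ X₁ := by exact_mod_cast h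
    have e1 := Nat.le_ceil (XL Q)
    have e2 := Nat.le_ceil (XB Q)
    have e3 : (0 : ℝ) ≤ ⌈XL Q⌉₊ := Nat.cast_nonneg _
    have e4 : (0 : ℝ) ≤ ⌈XB Q⌉₊ := Nat.cast_nonneg _
    have e5 : (0 : ℝ) ≤ 2 * (K * Q : ℝ) := by positivity
    exact ⟨by linarith, by linarith, by linarith⟩
  obtain ⟨SX, hSX⟩ : ∃ SX : ℕ → ℕ → ℂ, SX = fun (Q X : ℕ) => ∑ p ∈ PQ Q,
      ((Real.log p * ((p : ℝ) + 1) : ℝ) : ℂ) * AG (g2 F₁ F₂ R) s₁ s₂ s₃ s₄ ((X : ℝ) / p) :=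
    ⟨_, rfl⟩
  obtain ⟨M, hM⟩ : ∃ M : ℝ, M = ∑ X ∈ Icc 1 X₁, 1 / (X : ℝ) ^ 2 *
    ∑ Q ∈ Icc Q₁ Q₂, ‖SX Q X‖ := ⟨_, rfl⟩
  have hM0 : 0 ≤ M := by
    rw [hM]
    exact sum_nonneg fun X _ => mul_nonneg (by positivity)
      (sum_nonneg fun _ _ => norm_nonneg _)
  refine ⟨Q₂, max (max N₀ 3) ⌈Real.exp (M / (ε / 4))⌉₊, fun N' hN => ?_⟩
  have hN0 : N₀ ≤ N' := le_trans (le_trans (le_max_left _ _) (le_max_left _ _)) hN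
  have hN3 : 3 ≤ N' := le_trans (le_trans (le_max_right _ _) (le_max_left _ _)) hN
  have hNR : (0 : ℝ) < N' := by
    have : (3 : ℝ) ≤ N' := by exact_mod_cast hN3
    linarith
  have hNe : M / (ε / 4) ≤ Real.log N' := by
    rw [Real.le_log_iff_exp_le hNR]
    have := le_trans (le_max_right _ _) hN
    exact (Nat.le_ceil _).trans (by exact_mod_cast this)
  have hlogN : 1 ≤ Real.log N' := by
    rw [Real.le_log_iff_exp_le hNR]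
    have h1 : (3 : ℝ) ≤ N' := by exact_mod_cast hN3
    have h2 := Real.exp_one_lt_d9
    linarith
  have hMlog : M ≤ ε / 4 * Real.log N' := by
    rw [div_le_iff₀ (by positivity)] at hNe
    linarith
  obtain ⟨Q, hQ1, hQ2, hζ⟩ := hD N' hN0
    (fun X : ℕ => lb2 hPr.cm₁ hPr.cm₂ hq s₁ s₂ s₃ s₄ (X : ℝ))
  have hQpos : 1 ≤ Q := by omega
  have hQR : (1 : ℝ) ≤ Q := by exact_mod_cast hQpos
  have hKQ : (K : ℝ) / κ < Q := by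
    have h := Nat.lt_floor_add_one ((K : ℝ) / κ)
    have h' : ⌊(K : ℝ) / κ⌋₊ + 1 ≤ Q := by omega
    have h'' : ((⌊(K : ℝ) / κ⌋₊ : ℝ) + 1) ≤ Q := by exact_mod_cast h'
    linarith
  refine ⟨Q, by omega, hQ2, ?_⟩
  have hex : ∀ c : ℕ × ℕ, ∃ ζ₁ ζ₂ : ℕ → Tr (Lab N q) → ℕ × ℕ × ℕ × ℕ → ℝ,
      (∀ p T y, |ζ₁ p T y| ≤ B ∧ |ζ₂ p T y| ≤ B) ∧
      ∀ (lab : Gi → Lab N q) (X : ℝ), 2 * (K * Q : ℝ) ≤ X → ∀ e ∈ good K κ Q X, ∀ p ∈ PQ Q,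
      (((ζ₁ p (TT lab X e) (res p e) : ℝ) : ℂ) + Complex.I * ((ζ₂ p (TT lab X e) (res p e) : ℝ) : ℂ) =
        (((p : ℝ) + 1) / (2 * Q) : ℝ) * ∑ z ∈ cone X e.1 e.2, ∑ w ∈ cone X e.1 e.2,
          (if dt z w = p ∧ lat p ((πr p).2) z then d1 R c (lab z) * d2 c (lab w) else 0)) ∧
      (((av p (ζ₁ p) (TT lab X e) : ℝ) : ℂ) + Complex.I * ((av p (ζ₂ p) (TT lab X e) : ℝ) : ℂ) =
        (1 / (2 * (Q : ℝ)) : ℝ) * ∑ z ∈ cone X e.1 e.2, ∑ w ∈ cone X e.1 e.2,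
          (if dt z w = p then d1 R c (lab z) * d2 c (lab w) else 0)) := by
    intro c
    obtain ⟨ζ₁, ζ₂, h1, h2⟩ := hB Q hKQ (Lab N q) (d1 R c) (d2 c) (norm_d1 hPr.cm₁.pos R c)
      (norm_d2 hPr.cm₁.pos c) (fun p => (πr p).2)
    refine ⟨ζ₁, ζ₂, h1, fun lab X hX e he p hpm => ?_⟩
    obtain ⟨h3, h4⟩ := h2 lab X hX e he p hpm
    refine ⟨?_, h4⟩
    rw [h3]
  choose ζ₁ ζ₂ hζb hζi using hex
  obtain ⟨D1, hD1⟩ : ∃ D1 : ℕ × ℕ → ℕ → ℝ, D1 = fun (c : ℕ × ℕ) (X : ℕ) =>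
      ∑ e ∈ edge 0 1 ((X : ℝ) / (K * Q)), |∑ p ∈ PQ Q, Real.log p *
        (ζ₁ c p (TT (lb2 hPr.cm₁ hPr.cm₂ hq s₁ s₂ s₃ s₄ (X : ℝ)) X e) (res p e) -
          av p (ζ₁ c p) (TT (lb2 hPr.cm₁ hPr.cm₂ hq s₁ s₂ s₃ s₄ (X : ℝ)) X e))| := ⟨_, rfl⟩
  obtain ⟨D2, hD2⟩ : ∃ D2 : ℕ × ℕ → ℕ → ℝ, D2 = fun (c : ℕ × ℕ) (X : ℕ) =>
      ∑ e ∈ edge 0 1 ((X : ℝ) / (K * Q)), |∑ p ∈ PQ Q, Real.log p *
        (ζ₂ c p (TT (lb2 hPr.cm₁ hPr.cm₂ hq s₁ s₂ s₃ s₄ (X : ℝ)) X e) (res p e) -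
          av p (ζ₂ c p) (TT (lb2 hPr.cm₁ hPr.cm₂ hq s₁ s₂ s₃ s₄ (X : ℝ)) X e))| := ⟨_, rfl⟩
  have hD1s : ∀ c, ∑ X ∈ Ioc X₀ N', 1 / (X : ℝ) ^ 2 * D1 c X ≤ εD * Real.log N' := by
    intro c
    rw [hD1]
    exact hζ (ζ₁ c) (fun p T y => (hζb c p T y).1)
  have hD2s : ∀ c, ∑ X ∈ Ioc X₀ N', 1 / (X : ℝ) ^ 2 * D2 c X ≤ εD * Real.log N' := by
    intro c
    rw [hD2]
    exact hζ (ζ₂ c) (fun p T y => (hζb c p T y).2)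
  obtain ⟨DX, hDX⟩ : ∃ DX : ℕ → ℝ, DX = fun X => ∑ c ∈ Cs q, (D1 c X + D2 c X) := ⟨_, rfl⟩
  have hDX0 : ∀ X, 0 ≤ DX X := by
    intro X
    rw [hDX, hD1, hD2]
    exact sum_nonneg fun c _ => add_nonneg (sum_nonneg fun _ _ => abs_nonneg _)
      (sum_nonneg fun _ _ => abs_nonneg _)
  have hDXs : ∑ X ∈ Ioc X₀ N', 1 / (X : ℝ) ^ 2 * DX X ≤ nC * (2 * (εD * Real.log N')) := by
    have h1 : ∑ X ∈ Ioc X₀ N', 1 / (X : ℝ) ^ 2 * DX X =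
        ∑ c ∈ Cs q, (∑ X ∈ Ioc X₀ N', 1 / (X : ℝ) ^ 2 * D1 c X +
          ∑ X ∈ Ioc X₀ N', 1 / (X : ℝ) ^ 2 * D2 c X) := by
      simp only [← sum_add_distrib]
      rw [sum_comm]
      refine sum_congr rfl fun X _ => ?_
      rw [hDX]
      simp only
      rw [mul_sum]
      refine sum_congr rfl fun c _ => ?_
      ring
    rw [h1]
    have h2 : ∀ c ∈ Cs q, (∑ X ∈ Ioc X₀ N', 1 / (X : ℝ) ^ 2 * D1 c X +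
          ∑ X ∈ Ioc X₀ N', 1 / (X : ℝ) ^ 2 * D2 c X) ≤ 2 * (εD * Real.log N') := by
      intro c _
      linarith [hD1s c, hD2s c]
    refine (sum_le_sum h2).trans (le_of_eq ?_)
    rw [sum_const, nsmul_eq_mul, hnC]
  obtain ⟨Θ, hΘ⟩ : ∃ Θ : ℝ, Θ = ∑ p ∈ PQ Q, Real.log p := ⟨_, rfl⟩
  have hΘ0 : 0 ≤ Θ := by
    rw [hΘ]
    exact sum_nonneg fun p hp => log_nonneg_PQ hp
  have hΘC : Θ ≤ |C| * Q := by
    have h1 := (hQc Q (by omega)).2.2.2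
    rw [← hΘ] at h1
    exact h1.trans (mul_le_mul_of_nonneg_right (le_abs_self C) (by positivity))
  -- large X
  have hlarge : ∀ X : ℕ, X₁ < X → |‖SX Q X‖| ≤
      2 * Q * DX X + (4 * nC * εB * Q + 2 * εL * Θ) * X := by
    intro X hX
    obtain ⟨e1, e2, e3⟩ := hX₁' Q hQ1 hQ2
    have hXR : (X₁ : ℝ) ≤ X := by exact_mod_cast hX.le
    have h := per_X2 hp hPr hq hR (K := K) (κ := κ) (Q := Q) (s := s) (s₁ := s₁) (s₂ := s₂)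
      (s₃ := s₃) (s₄ := s₄) (X := (X : ℝ)) (ε₃ := εB) (ε' := εL) hs₁ hs₃ hss1 hss3 hK hκ hQpos
      (by omega) (e3.trans hXR) (fun p => (πr p).1) (fun p => (πr p).2)
      (fun p hp => hπr p (PQ_mem hp).2.2.1 (PQ_mem hp).2.2.2) ζ₁ ζ₂
      (fun c _ e he p hpm => hζi c _ X (e3.trans hXR) e he p hpm)
      (hXB' Q hQ1 X (e2.trans hXR)) hεL0.le (hXL' Q hQ1 X (e1.trans hXR))
    rw [abs_of_nonneg (norm_nonneg _), hSX]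
    refine h.trans (le_of_eq ?_)
    rw [← hΘ, ← hnC, hDX, hD1, hD2]
    simp only [sum_add_distrib]
    ring
  have hsum := sum_split (fun X => ‖SX Q X‖) DX (fun X => ∑ Q ∈ Icc Q₁ Q₂, ‖SX Q X‖)
    (X₀ := X₀) (X₁ := X₁) (N := N') (a := 2 * Q) (b := 4 * nC * εB * Q + 2 * εL * Θ)
    (Λ := nC * (2 * (εD * Real.log N')))
    (fun X => by
      rw [abs_of_nonneg (norm_nonneg _)]
      exact single_le_sum (f := fun Q => ‖SX Q X‖) (fun _ _ => norm_nonneg _)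
        (mem_Icc.2 ⟨hQ1, hQ2⟩))
    hlarge hDX0 (by positivity) (by positivity) (by rw [hX₁]; exact Nat.le_add_right _ _) hDXs
  rw [← hM] at hsum
  have hgoal : ∑ X ∈ Icc 1 N', 1 / (X : ℝ) ^ 2 * ‖∑ p ∈ PQ Q,
      ((Real.log p * ((p : ℝ) + 1) : ℝ) : ℂ) *
        AG (g2 F₁ F₂ R) s₁ s₂ s₃ s₄ ((X : ℝ) / p)‖ =
      ∑ X ∈ Icc 1 N', 1 / (X : ℝ) ^ 2 * ‖SX Q X‖ := by rw [hSX]
  rw [hgoal]
  refine (le_abs_self _).trans (hsum.trans ?_)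
  have hQl : 0 ≤ (Q : ℝ) * Real.log N' := by positivity
  have c1 : nC * εD ≤ ε / 16 := by
    rw [hεD, mul_div_assoc', div_le_div_iff₀ (by positivity) (by norm_num)]
    nlinarith
  have c2 : nC * εB ≤ ε / 64 := by
    rw [hεB, mul_div_assoc', div_le_div_iff₀ (by positivity) (by norm_num)]
    nlinarith
  have c3 : εL * |C| ≤ ε / 32 := by
    have := abs_nonneg C
    rw [hεL, div_mul_eq_mul_div, div_le_div_iff₀ (by positivity) (by norm_num)]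
    nlinarith
  have b1 : 2 * (Q : ℝ) * (nC * (2 * (εD * Real.log N'))) ≤ ε / 4 * (Q * Real.log N') := by
    have := mul_le_mul_of_nonneg_right c1 hQl
    calc 2 * (Q : ℝ) * (nC * (2 * (εD * Real.log N'))) = 4 * (nC * εD * (Q * Real.log N')) := by
          ring
      _ ≤ 4 * (ε / 16 * (Q * Real.log N')) := by linarith
      _ = ε / 4 * (Q * Real.log N') := by ring
  have b2 : 4 * nC * εB * Q + 2 * εL * Θ ≤ ε / 8 * Q := by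
    have h1 := mul_le_mul_of_nonneg_right c2 (by positivity : (0 : ℝ) ≤ Q)
    have h2 : εL * Θ ≤ εL * (|C| * Q) := mul_le_mul_of_nonneg_left hΘC hεL0.le
    have h3 := mul_le_mul_of_nonneg_right c3 (by positivity : (0 : ℝ) ≤ Q)
    calc 4 * nC * εB * Q + 2 * εL * Θ ≤ 4 * (nC * εB * Q) + 2 * (εL * (|C| * Q)) := by linarith
      _ = 4 * (nC * εB * Q) + 2 * (εL * |C| * Q) := by ring
      _ ≤ 4 * (ε / 64 * Q) + 2 * (ε / 32 * Q) := by linarith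
      _ = ε / 8 * Q := by ring
  have b3 : (4 * nC * εB * Q + 2 * εL * Θ) * (1 + Real.log N') ≤ ε / 4 * (Q * Real.log N') := by
    calc (4 * nC * εB * Q + 2 * εL * Θ) * (1 + Real.log N') ≤
        ε / 8 * Q * (2 * Real.log N') :=
          mul_le_mul b2 (by linarith) (by linarith) (by positivity)
      _ = ε / 4 * (Q * Real.log N') := by ring
  have b4 : M ≤ ε / 4 * (Q * Real.log N') := by
    refine hMlog.trans (mul_le_mul_of_nonneg_left ?_ (by positivity))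
    exact le_mul_of_one_le_left (by linarith) hQR
  have b5 : 0 ≤ ε * (Q * Real.log N') := by positivity
  have b6 : ε * Q * Real.log N' = ε * (Q * Real.log N') := by ring
  linarith

end Pool.Agent.W214.EX
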