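import Pool.Agent.W251.EX.Defs2
import Pool.Agent.W78.EC.Fix5

/-!
Project EY (helper251), AVX, part 1: labels and the estimate for fixed `X`.
-/

set_option autoImplicit false

namespace Pool.Agent.W214.EX

open Finset Filter
open Pool.Agent.H376R2.MR (FK)
open Pool.Agent.W78.GA (Qd nm prim dt ip lat ball pball edge dedge)
open Pool.Agent.W78.EC (Gi cone cw PQ SP th good InG TT res av Tr)
open Pool.Agent.W251.GX (Cm)
open Pool.Agent.W251.EX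
open Pool.Agent.W78.EC.Fx
open Pool.Agent.W540.EC

/-- roots of unity and `0` -/
noncomputable def Vs (N : ℕ) : Finset ℂ := insert 0 (Polynomial.nthRoots N (1 : ℂ)).toFinset

/-- residue classes -/
def Cs (q : ℕ) : Finset (ℕ × ℕ) := range q ×ˢ range q

/-- the labels -/
abbrev Lab (N q : ℕ) : Type := ↥(Vs N) × ↥(Vs N) × ↥(Cs q)

theorem mem_Vs {N : ℕ} {F : Gi → ℂ} (hF : Cm N F) (z : Gi) : F z ∈ Vs N := by
  unfold Vs
  rw [mem_insert, Multiset.mem_toFinset, Polynomial.mem_nthRoots hF.pos]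
  exact Or.inr (hF.pow z)

/-- the class of `z` -/
def cls (q : ℕ) (z : Gi) : ℕ × ℕ := ((z.re % (q : ℤ)).toNat, (z.im % (q : ℤ)).toNat)

theorem cls_mem {q : ℕ} (hq : 1 ≤ q) (z : Gi) : cls q z ∈ Cs q := by
  unfold Cs cls
  have h1 : (0 : ℤ) < q := by omega
  have a1 := Int.emod_nonneg z.re h1.ne'
  have a2 := Int.emod_lt_of_pos z.re h1
  have b1 := Int.emod_nonneg z.im h1.ne'
  have b2 := Int.emod_lt_of_pos z.im h1
  rw [mem_product, mem_range, mem_range]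
  simp only
  omega

/-- representative of a class -/
def rp (c : ℕ × ℕ) : Gi := ⟨c.1, c.2⟩

theorem rp_cls {q : ℕ} (hq : 1 ≤ q) (z : Gi) :
    (q : ℤ) ∣ z.re - (rp (cls q z)).re ∧ (q : ℤ) ∣ z.im - (rp (cls q z)).im := by
  unfold rp cls
  have h1 : (0 : ℤ) < q := by omega
  have a1 := Int.emod_nonneg z.re h1.ne'
  have b1 := Int.emod_nonneg z.im h1.ne'
  simp only
  rw [Int.toNat_of_nonneg a1, Int.toNat_of_nonneg b1]
  exact ⟨Int.dvd_self_sub_emod, Int.dvd_self_sub_emod⟩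

theorem cls_iff {q : ℕ} (hq : 1 ≤ q) (z : Gi) (c : ℕ × ℕ) (hc : c ∈ Cs q) :
    cls q z = c ↔ (q : ℤ) ∣ z.re - (rp c).re ∧ (q : ℤ) ∣ z.im - (rp c).im := by
  constructor
  · rintro rfl
    exact rp_cls hq z
  · rintro ⟨h1, h2⟩
    have h3 := rp_cls hq z
    have hm := cls_mem hq z
    unfold Cs at hc hm
    rw [mem_product, mem_range, mem_range] at hc hm
    have key : ∀ x y : ℕ, x < q → y < q → (q : ℤ) ∣ (x : ℤ) - y → x = y := by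
      intro x y hx hy hd
      have h5 : (y : ℤ) ≡ x [ZMOD q] := (Int.modEq_iff_dvd).mpr hd
      have h6 : y ≡ x [MOD q] := (Int.natCast_modEq_iff).mp h5
      exact (Nat.ModEq.eq_of_lt_of_lt h6 hy hx).symm
    have e1 : (q : ℤ) ∣ ((cls q z).1 : ℤ) - (c.1 : ℤ) := by
      have := dvd_sub h1 h3.1
      unfold rp at this
      simp only at this
      have e : z.re - (c.1 : ℤ) - (z.re - ((cls q z).1 : ℤ)) = ((cls q z).1 : ℤ) - c.1 := by ring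
      rwa [e] at this
    have e2 : (q : ℤ) ∣ ((cls q z).2 : ℤ) - (c.2 : ℤ) := by
      have := dvd_sub h2 h3.2
      unfold rp at this
      simp only at this
      have e : z.im - (c.2 : ℤ) - (z.im - ((cls q z).2 : ℤ)) = ((cls q z).2 : ℤ) - c.2 := by ring
      rwa [e] at this
    exact Prod.ext (key _ _ hm.1 hc.1 e1) (key _ _ hm.2 hc.2 e2)

open scoped Classical in
/-- `F` in a window -/
noncomputable def wF (F : Gi → ℂ) (s₁ s₂ X : ℝ) (z : Gi) : ℂ :=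
  if s₁ * X < (nm z : ℝ) ∧ (nm z : ℝ) ≤ s₂ * X then F z else 0

theorem wF_mem {N : ℕ} {F : Gi → ℂ} (hF : Cm N F) (s₁ s₂ X : ℝ) (z : Gi) :
    wF F s₁ s₂ X z ∈ Vs N := by
  unfold wF
  split_ifs
  · exact mem_Vs hF z
  · unfold Vs
    exact mem_insert_self _ _

theorem norm_F {N : ℕ} {F : Gi → ℂ} (hF : Cm N F) (z : Gi) : ‖F z‖ = 1 :=
  Complex.norm_eq_one_of_pow_eq_one (hF.pow z) (by have := hF.pos; omega)

theorem norm_wF {N : ℕ} {F : Gi → ℂ} (hF : Cm N F) (s₁ s₂ X : ℝ) (z : Gi) :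
    ‖wF F s₁ s₂ X z‖ ≤ 1 := by
  unfold wF
  split_ifs
  · exact (norm_F hF z).le
  · simp

theorem norm_Vs {N : ℕ} (hN : 1 ≤ N) (x : ↥(Vs N)) : ‖(x : ℂ)‖ ≤ 1 := by
  obtain ⟨x, hx⟩ := x
  unfold Vs at hx
  rw [mem_insert, Multiset.mem_toFinset, Polynomial.mem_nthRoots hN] at hx
  rcases hx with h | h
  · simp [h]
  · exact (Complex.norm_eq_one_of_pow_eq_one h (by omega)).le

/-- the labelling -/
noncomputable def lb2 {N : ℕ} {F₁ F₂ : Gi → ℂ} (h1 : Cm N F₁) (h2 : Cm N F₂) {q : ℕ} (hq : 1 ≤ q)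
    (s₁ s₂ s₃ s₄ X : ℝ) (z : Gi) : Lab N q :=
  (⟨wF F₁ s₁ s₂ X z, wF_mem h1 _ _ _ _⟩, ⟨wF F₂ s₃ s₄ X z, wF_mem h2 _ _ _ _⟩,
    ⟨cls q z, cls_mem hq z⟩)

open scoped Classical in
/-- first function of the labels -/
noncomputable def d1 {N q : ℕ} (R : Gi → Gi → Prop) (c : ℕ × ℕ) (a : Lab N q) : ℂ :=
  if R (rp (a.2.2 : ℕ × ℕ)) (rp c) then (a.1 : ℂ) else 0

/-- second function of the labels -/
noncomputable def d2 {N q : ℕ} (c : ℕ × ℕ) (a : Lab N q) : ℂ :=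
  if (a.2.2 : ℕ × ℕ) = c then (a.2.1 : ℂ) else 0

theorem norm_d1 {N q : ℕ} (hN : 1 ≤ N) (R : Gi → Gi → Prop) (c : ℕ × ℕ) (a : Lab N q) :
    ‖d1 R c a‖ ≤ 1 := by
  unfold d1
  split_ifs
  · exact norm_Vs hN _
  · simp

theorem norm_d2 {N q : ℕ} (hN : 1 ≤ N) (c : ℕ × ℕ) (a : Lab N q) : ‖d2 c a‖ ≤ 1 := by
  unfold d2
  split_ifs
  · exact norm_Vs hN _
  · simp

open scoped Classical in
/-- the function of the pair, with windows -/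
noncomputable def G2 (F₁ F₂ : Gi → ℂ) (R : Gi → Gi → Prop) (s₁ s₂ s₃ s₄ X : ℝ) (v w : Gi) : ℂ :=
  if R v w then wF F₁ s₁ s₂ X v * wF F₂ s₃ s₄ X w else 0

theorem sum_d {N : ℕ} {F₁ F₂ : Gi → ℂ} (h1 : Cm N F₁) (h2 : Cm N F₂) {q : ℕ} (hq : 1 ≤ q)
    {R : Gi → Gi → Prop} (hR : Rel q R) (s₁ s₂ s₃ s₄ X : ℝ) (v w : Gi) :
    ∑ c ∈ Cs q, d1 R c (lb2 h1 h2 hq s₁ s₂ s₃ s₄ X v) * d2 c (lb2 h1 h2 hq s₁ s₂ s₃ s₄ X w) =
      G2 F₁ F₂ R s₁ s₂ s₃ s₄ X v w := by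
  rw [sum_eq_single (cls q w)]
  · have hR' : R (rp (cls q v)) (rp (cls q w)) ↔ R v w := by
      obtain ⟨a1, a2⟩ := rp_cls hq v
      obtain ⟨b1, b2⟩ := rp_cls hq w
      exact (hR.per _ _ _ _ a1 a2 b1 b2).symm
    have e2 : d2 (cls q w) (lb2 h1 h2 hq s₁ s₂ s₃ s₄ X w) = wF F₂ s₃ s₄ X w := by
      unfold d2 lb2
      simp only [if_true]
    rw [e2]
    unfold G2
    by_cases h : R v w
    · have e1 : d1 R (cls q w) (lb2 h1 h2 hq s₁ s₂ s₃ s₄ X v) = wF F₁ s₁ s₂ X v := by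
        unfold d1 lb2
        exact if_pos (hR'.mpr h)
      rw [e1, if_pos h]
    · have e1 : d1 R (cls q w) (lb2 h1 h2 hq s₁ s₂ s₃ s₄ X v) = 0 := by
        unfold d1 lb2
        exact if_neg (fun h' => h (hR'.mp h'))
      rw [e1, if_neg h, zero_mul]
  · intro c _ hc
    have e2 : d2 c (lb2 h1 h2 hq s₁ s₂ s₃ s₄ X w) = 0 := by
      unfold d2 lb2
      simp only
      rw [if_neg (fun h => hc h.symm)]
    rw [e2, mul_zero]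
  · intro h
    exact absurd (cls_mem hq w) h

theorem AG_eq (F₁ F₂ : Gi → ℂ) (R : Gi → Gi → Prop) (s₁ s₂ s₃ s₄ X : ℝ) :
    AG (g2 F₁ F₂ R) s₁ s₂ s₃ s₄ X = ∑ e ∈ (dedge 0 1 X).filter (fun e => 0 < ip e.1 e.2),
      G2 F₁ F₂ R s₁ s₂ s₃ s₄ X e.1 e.2 := by
  classical
  have hfil : (dedge 0 1 X).filter (fun e => 0 < ip e.1 e.2 ∧ s₁ * X < (nm e.1 : ℝ) ∧
      (nm e.1 : ℝ) ≤ s₂ * X ∧ s₃ * X < (nm e.2 : ℝ) ∧ (nm e.2 : ℝ) ≤ s₄ * X) =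
      ((dedge 0 1 X).filter (fun e => 0 < ip e.1 e.2)).filter (fun e =>
        s₁ * X < (nm e.1 : ℝ) ∧ (nm e.1 : ℝ) ≤ s₂ * X ∧ s₃ * X < (nm e.2 : ℝ) ∧
        (nm e.2 : ℝ) ≤ s₄ * X) := by
    rw [filter_filter]
  have hAG : AG (g2 F₁ F₂ R) s₁ s₂ s₃ s₄ X = ∑ e ∈ ((dedge 0 1 X).filter
      (fun e => 0 < ip e.1 e.2)).filter (fun e =>
        s₁ * X < (nm e.1 : ℝ) ∧ (nm e.1 : ℝ) ≤ s₂ * X ∧ s₃ * X < (nm e.2 : ℝ) ∧
        (nm e.2 : ℝ) ≤ s₄ * X), g2 F₁ F₂ R e := by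
    rw [← hfil]
    unfold AG
    exact sum_congr (by congr) fun _ _ => rfl
  rw [hAG, sum_filter]
  refine sum_congr rfl fun e _ => ?_
  unfold g2 G2 wF
  by_cases h1 : s₁ * X < (nm e.1 : ℝ) ∧ (nm e.1 : ℝ) ≤ s₂ * X <;>
  by_cases h2 : s₃ * X < (nm e.2 : ℝ) ∧ (nm e.2 : ℝ) ≤ s₄ * X
  · rw [if_pos ⟨h1.1, h1.2, h2.1, h2.2⟩, if_pos h1, if_pos h2]
  · rw [if_neg (fun h => h2 ⟨h.2.2.1, h.2.2.2⟩), if_neg h2]
    simp
  · rw [if_neg (fun h => h1 ⟨h.1, h.2.1⟩), if_neg h1]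
    simp
  · rw [if_neg (fun h => h1 ⟨h.1, h.2.1⟩), if_neg h1]
    simp

theorem wF_mul {N : ℕ} {F : Gi → ℂ} (hF : Cm N F) {p : ℕ} (hp : p.Prime) {π : Gi} (hπ : nm π = p)
    {s₁ s₂ X : ℝ} (h0 : 0 ≤ s₁ * X) (z : Gi) :
    wF F s₁ s₂ X (π * z) = F π * wF F s₁ s₂ (X / p) z := by
  have hp0 : (0 : ℝ) < p := by exact_mod_cast hp.pos
  have h1 : (nm (π * z) : ℝ) = p * nm z := by
    rw [Pool.Agent.W78.GA.nm_mul, hπ]
    push_cast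
    ring
  have h2 : s₁ * X < (nm (π * z) : ℝ) ↔ s₁ * (X / p) < (nm z : ℝ) := by
    rw [h1, ← mul_div_assoc, div_lt_iff₀ hp0, mul_comm (p : ℝ)]
  have h3 : (nm (π * z) : ℝ) ≤ s₂ * X ↔ (nm z : ℝ) ≤ s₂ * (X / p) := by
    rw [h1, ← mul_div_assoc, le_div_iff₀ hp0, mul_comm (p : ℝ)]
  unfold wF
  by_cases hc : s₁ * (X / p) < (nm z : ℝ) ∧ (nm z : ℝ) ≤ s₂ * (X / p)
  · rw [if_pos (by rw [h2, h3]; exact hc), if_pos hc]
    have hz : z ≠ 0 := by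
      rintro rfl
      have := hc.1
      rw [Pool.Agent.W78.GA.nm_zero] at this
      have h4 : 0 ≤ s₁ * (X / p) := by
        rw [← mul_div_assoc]
        positivity
      push_cast at this
      linarith
    have hπ0 : π ≠ 0 := by
      rintro rfl
      rw [Pool.Agent.W78.GA.nm_zero] at hπ
      exact hp.ne_zero hπ.symm
    exact hF.mul π z hπ0 hz
  · rw [if_neg (by rw [h2, h3]; exact hc), if_neg hc, mul_zero]

theorem G2_mul {N : ℕ} {τ : ℂ} {F₁ F₂ : Gi → ℂ} (hPr : Pr N τ F₁ F₂) {q : ℕ}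
    {R : Gi → Gi → Prop} (hR : Rel q R) {p : ℕ} (hp : p.Prime) (hpq : Nat.Coprime p q) {π : Gi}
    (hπ : nm π = p) {s₁ s₂ s₃ s₄ X : ℝ} (h0 : 0 ≤ s₁ * X) (h0' : 0 ≤ s₃ * X) (v w : Gi) :
    G2 F₁ F₂ R s₁ s₂ s₃ s₄ X (π * v) (π * w) = τ * G2 F₁ F₂ R s₁ s₂ s₃ s₄ (X / p) v w := by
  unfold G2
  have h1 : R (π * v) (π * w) ↔ R v w := hR.dil π v w (by rw [hπ]; exact hpq)
  have h2 : F₁ π * F₂ π = τ := hPr.tw π (by rw [hπ]; exact hp)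
  rw [wF_mul hPr.cm₁ hp hπ h0, wF_mul hPr.cm₂ hp hπ h0', ← h2]
  by_cases h : R v w
  · rw [if_pos (h1.mpr h), if_pos h]; ring
  · rw [if_neg (fun h' => h (h1.mp h')), if_neg h, mul_zero]

theorem norm_tau {N : ℕ} {τ : ℂ} {F₁ F₂ : Gi → ℂ} (hPr : Pr N τ F₁ F₂) {p : ℕ} (hp : p.Prime)
    {π : Gi} (hπ : nm π = p) : ‖τ‖ = 1 := by
  rw [← hPr.tw π (by rw [hπ]; exact hp), norm_mul, norm_F hPr.cm₁, norm_F hPr.cm₂, one_mul]

theorem norm_G2 {N : ℕ} {F₁ F₂ : Gi → ℂ} (h1 : Cm N F₁) (h2 : Cm N F₂) (R : Gi → Gi → Prop)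
    (s₁ s₂ s₃ s₄ X : ℝ) (v w : Gi) : ‖G2 F₁ F₂ R s₁ s₂ s₃ s₄ X v w‖ ≤ 1 := by
  unfold G2
  split_ifs
  · rw [norm_mul]
    calc ‖wF F₁ s₁ s₂ X v‖ * ‖wF F₂ s₃ s₄ X w‖ ≤ 1 * 1 :=
          mul_le_mul (norm_wF h1 _ _ _ _) (norm_wF h2 _ _ _ _) (norm_nonneg _) zero_le_one
      _ = 1 := one_mul 1
  · simp

open scoped Classical in
/-- the loss for one prime -/
theorem AG_split {N : ℕ} {τ : ℂ} {F₁ F₂ : Gi → ℂ} (hPr : Pr N τ F₁ F₂) {q : ℕ} (hq : 1 ≤ q)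
    {R : Gi → Gi → Prop} (hR : Rel q R) {p : ℕ} (hp : p.Prime) (hpq : Nat.Coprime p q) {π : Gi}
    (hπ : nm π = p) {s s₁ s₂ s₃ s₄ X : ℝ} (h0 : 0 ≤ s₁ * X) (h0' : 0 ≤ s₃ * X)
    (hs1 : s * X ≤ s₁ * X) (hs3 : s * X ≤ s₃ * X) {K : ℕ} {κ : ℝ} {Q : ℕ} {δ : ℝ}
    (hG : ∀ e, InG K κ Q X π e → 0 < ip e.1 e.2)
    (hL : (((dedge 0 1 (X / p)).filter (fun e => 0 < ip e.1 e.2 ∧ s * (X / p) < (nm e.1 : ℝ) ∧
      s * (X / p) < (nm e.2 : ℝ) ∧ ¬ InG K κ Q X π e)).card : ℝ) ≤ δ) :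
    ‖τ * AG (g2 F₁ F₂ R) s₁ s₂ s₃ s₄ (X / p) -
      ∑ c ∈ Cs q, ∑ e ∈ (dedge 0 1 (X / p)).filter (InG K κ Q X π),
        d1 R c (lb2 hPr.cm₁ hPr.cm₂ hq s₁ s₂ s₃ s₄ X (π * e.1)) *
          d2 c (lb2 hPr.cm₁ hPr.cm₂ hq s₁ s₂ s₃ s₄ X (π * e.2))‖ ≤ δ := by
  have hp0 : (0 : ℝ) < p := by exact_mod_cast hp.pos
  have hII : (dedge 0 1 (X / p)).filter (InG K κ Q X π) =
      ((dedge 0 1 (X / p)).filter (fun e => 0 < ip e.1 e.2)).filter (InG K κ Q X π) := by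
    rw [filter_filter]
    exact filter_congr fun e _ => ⟨fun h => ⟨hG e h, h⟩, fun h => h.2⟩
  rw [sum_comm]
  simp only [sum_d hPr.cm₁ hPr.cm₂ hq hR, G2_mul hPr hR hp hpq hπ h0 h0']
  rw [hII, AG_eq, mul_sum,
    ← sum_filter_add_sum_filter_not ((dedge 0 1 (X / p)).filter (fun e => 0 < ip e.1 e.2))
      (InG K κ Q X π), add_sub_cancel_left]
  refine (norm_sum_le _ _).trans (le_trans ?_ hL)
  have h1 : ∀ e ∈ ((dedge 0 1 (X / p)).filter (fun e => 0 < ip e.1 e.2)).filter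
      (fun e => ¬ InG K κ Q X π e),
      ‖τ * G2 F₁ F₂ R s₁ s₂ s₃ s₄ (X / p) e.1 e.2‖ ≤
      if s * (X / p) < (nm e.1 : ℝ) ∧ s * (X / p) < (nm e.2 : ℝ) then (1 : ℝ) else 0 := by
    intro e _
    rw [norm_mul, norm_tau hPr hp hπ, one_mul]
    split_ifs with hc
    · exact norm_G2 hPr.cm₁ hPr.cm₂ _ _ _ _ _ _ _ _
    · have ha : s * (X / p) ≤ s₁ * (X / p) := by
        rw [← mul_div_assoc, ← mul_div_assoc]
        exact div_le_div_of_nonneg_right hs1 hp0.le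
      have hb : s * (X / p) ≤ s₃ * (X / p) := by
        rw [← mul_div_assoc, ← mul_div_assoc]
        exact div_le_div_of_nonneg_right hs3 hp0.le
      have hz : G2 F₁ F₂ R s₁ s₂ s₃ s₄ (X / p) e.1 e.2 = 0 := by
        unfold G2 wF
        by_cases h2 : s₁ * (X / p) < (nm e.1 : ℝ) ∧ (nm e.1 : ℝ) ≤ s₂ * (X / p)
        · have h3 : ¬ (s₃ * (X / p) < (nm e.2 : ℝ) ∧ (nm e.2 : ℝ) ≤ s₄ * (X / p)) := by
            intro h3
            exact hc ⟨by linarith [h2.1], by linarith [h3.1]⟩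
          rw [if_neg h3]
          simp
        · rw [if_neg h2]
          simp
      rw [hz, norm_zero]
  refine (sum_le_sum h1).trans ?_
  rw [sum_boole, filter_filter, filter_filter]
  refine le_of_eq ?_
  congr 2
  refine filter_congr fun e _ => ?_
  tauto

end Pool.Agent.W214.EX
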