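import Pool.Agent.W214.EX.Avx1

/-!
Project EY (helper251), AVX, part 2: the estimate for fixed `X`.
-/

set_option autoImplicit false

namespace Pool.Agent.W214.EX

open Finset Filter
open Pool.Agent.H376R2.MR (FK)
open Pool.Agent.W78.GA (Qd nm prim dt ip lat ball pball edge dedge)
open Pool.Agent.W78.EC (Gi cone cw PQ SP th good InG TT res av Tr)
open Pool.Agent.W251.GX (Cm)
open Pool.Agent.W251.EX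
open Pool.Agent.W78.EC.Fx
open Pool.Agent.W540.EC

/-- triple sums over the cones -/
noncomputable def S3 {M : Type} [AddCommMonoid M] (K : ℕ) (κ : ℝ) (Q : ℕ) (X s₃ s₄ : ℝ)
    (f : Gi → Gi → M) : M :=
  ∑ e ∈ good K κ Q X, ∑ v ∈ cone X e.1 e.2, ∑ w ∈ cw X s₃ s₄ e.1 e.2, f v w

theorem S3_congr {M : Type} [AddCommMonoid M] {K : ℕ} {κ : ℝ} {Q : ℕ} {X s₃ s₄ : ℝ}
    {f g : Gi → Gi → M} (h : ∀ v w, f v w = g v w) :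
    S3 K κ Q X s₃ s₄ f = S3 K κ Q X s₃ s₄ g := by
  unfold S3
  exact sum_congr rfl fun e _ => sum_congr rfl fun v _ => sum_congr rfl fun w _ => h v w

theorem S3_add {K : ℕ} {κ : ℝ} {Q : ℕ} {X s₃ s₄ : ℝ} (f g : Gi → Gi → ℂ) :
    S3 K κ Q X s₃ s₄ (fun v w => f v w + g v w) = S3 K κ Q X s₃ s₄ f + S3 K κ Q X s₃ s₄ g := by
  unfold S3
  simp only [sum_add_distrib]

theorem S3_mul {K : ℕ} {κ : ℝ} {Q : ℕ} {X s₃ s₄ : ℝ} (c : ℂ) (f : Gi → Gi → ℂ) :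
    S3 K κ Q X s₃ s₄ (fun v w => c * f v w) = c * S3 K κ Q X s₃ s₄ f := by
  unfold S3
  simp only [mul_sum]

theorem S3_real {K : ℕ} {κ : ℝ} {Q : ℕ} {X s₃ s₄ : ℝ} (f : Gi → Gi → ℝ) :
    S3 K κ Q X s₃ s₄ (fun v w => ((f v w : ℝ) : ℂ)) = ((S3 K κ Q X s₃ s₄ f : ℝ) : ℂ) := by
  unfold S3
  push_cast
  rfl

/-- the bilinear term -/
theorem bil {N : ℕ} {F₁ F₂ : Gi → ℂ} (h1 : Cm N F₁) (h2 : Cm N F₂) {q : ℕ} (hq : 1 ≤ q)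
    (R : Gi → Gi → Prop) {K : ℕ} {κ : ℝ} {Q : ℕ} {s₁ s₂ s₃ s₄ X ε₃ : ℝ} (c : ℕ × ℕ)
    (hc : c ∈ Cs q)
    (hBr : ∀ α : Gi → ℝ, (∀ z, |α z| ≤ 1) → (∀ z, α z ≠ 0 → s₁ * X < (nm z : ℝ)) →
      |∑ e ∈ good K κ Q X, ∑ v ∈ cone X e.1 e.2, ∑ w ∈ cw X s₃ s₄ e.1 e.2,
        α v * cl q (rp c) (fun z => (F₂ z).re) w * th Q (dt v w)| ≤ ε₃)
    (hBi : ∀ α : Gi → ℝ, (∀ z, |α z| ≤ 1) → (∀ z, α z ≠ 0 → s₁ * X < (nm z : ℝ)) →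
      |∑ e ∈ good K κ Q X, ∑ v ∈ cone X e.1 e.2, ∑ w ∈ cw X s₃ s₄ e.1 e.2,
        α v * cl q (rp c) (fun z => (F₂ z).im) w * th Q (dt v w)| ≤ ε₃) :
    ‖∑ e ∈ good K κ Q X, ∑ v ∈ cone X e.1 e.2, ∑ w ∈ cone X e.1 e.2,
      d1 R c (lb2 h1 h2 hq s₁ s₂ s₃ s₄ X v) * d2 c (lb2 h1 h2 hq s₁ s₂ s₃ s₄ X w) *
        (th Q (dt v w) : ℂ)‖ ≤ 4 * ε₃ := by
  classical
  obtain ⟨D, hD⟩ : ∃ D : Gi → ℂ, D = fun v => d1 R c (lb2 h1 h2 hq s₁ s₂ s₃ s₄ X v) := ⟨_, rfl⟩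
  have hDn : ∀ v, ‖D v‖ ≤ 1 := fun v => by rw [hD]; exact norm_d1 h1.pos R c _
  have hDw : ∀ v, D v ≠ 0 → s₁ * X < (nm v : ℝ) := by
    intro v hv
    by_contra hcon
    apply hv
    rw [hD]
    unfold d1 lb2 wF
    simp only
    rw [if_neg (fun h : s₁ * X < (nm v : ℝ) ∧ (nm v : ℝ) ≤ s₂ * X => hcon h.1)]
    simp
  obtain ⟨a, ha⟩ : ∃ a : Gi → ℝ, a = fun v => (D v).re := ⟨_, rfl⟩
  obtain ⟨b, hb⟩ : ∃ b : Gi → ℝ, b = fun v => (D v).im := ⟨_, rfl⟩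
  have ha1 : ∀ v, |a v| ≤ 1 := fun v => by
    rw [ha]; exact (Complex.abs_re_le_norm _).trans (hDn v)
  have hb1 : ∀ v, |b v| ≤ 1 := fun v => by
    rw [hb]; exact (Complex.abs_im_le_norm _).trans (hDn v)
  have ha2 : ∀ v, a v ≠ 0 → s₁ * X < (nm v : ℝ) := by
    intro v hv
    refine hDw v (fun h => hv ?_)
    rw [ha]; simp only; rw [h]; rfl
  have hb2 : ∀ v, b v ≠ 0 → s₁ * X < (nm v : ℝ) := by
    intro v hv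
    refine hDw v (fun h => hv ?_)
    rw [hb]; simp only; rw [h]; rfl
  have hDab : ∀ v, D v = (a v : ℂ) + Complex.I * (b v : ℂ) := by
    intro v
    rw [ha, hb]
    simp only
    rw [mul_comm]
    exact (Complex.re_add_im _).symm
  obtain ⟨r, hr⟩ : ∃ r : Gi → ℝ, r = cl q (rp c) (fun z => (F₂ z).re) := ⟨_, rfl⟩
  obtain ⟨m, hm⟩ : ∃ m : Gi → ℝ, m = cl q (rp c) (fun z => (F₂ z).im) := ⟨_, rfl⟩
  have hd2 : ∀ w, d2 c (lb2 h1 h2 hq s₁ s₂ s₃ s₄ X w) =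
      if s₃ * X < (nm w : ℝ) ∧ (nm w : ℝ) ≤ s₄ * X then (r w : ℂ) + Complex.I * (m w : ℂ)
        else 0 := by
    intro w
    have e0 : d2 c (lb2 h1 h2 hq s₁ s₂ s₃ s₄ X w) =
        if cls q w = c then wF F₂ s₃ s₄ X w else 0 := rfl
    rw [e0]
    have hci := cls_iff hq w c hc
    by_cases hw : s₃ * X < (nm w : ℝ) ∧ (nm w : ℝ) ≤ s₄ * X
    · rw [if_pos hw]
      have e1 : wF F₂ s₃ s₄ X w = F₂ w := by unfold wF; exact if_pos hw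
      rw [e1, hr, hm]
      unfold cl
      by_cases hcl : (q : ℤ) ∣ w.re - (rp c).re ∧ (q : ℤ) ∣ w.im - (rp c).im
      · rw [if_pos (hci.mpr hcl), if_pos hcl, if_pos hcl, mul_comm]
        exact (Complex.re_add_im _).symm
      · rw [if_neg (fun h => hcl (hci.mp h)), if_neg hcl, if_neg hcl]
        simp
    · rw [if_neg hw]
      have e1 : wF F₂ s₃ s₄ X w = 0 := by unfold wF; exact if_neg hw
      rw [e1]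
      simp
  have hmain : ∑ e ∈ good K κ Q X, ∑ v ∈ cone X e.1 e.2, ∑ w ∈ cone X e.1 e.2,
      d1 R c (lb2 h1 h2 hq s₁ s₂ s₃ s₄ X v) * d2 c (lb2 h1 h2 hq s₁ s₂ s₃ s₄ X w) *
        (th Q (dt v w) : ℂ) =
      S3 K κ Q X s₃ s₄ (fun v w => D v * ((r w : ℂ) + Complex.I * (m w : ℂ)) *
        (th Q (dt v w) : ℂ)) := by
    unfold S3
    refine sum_congr rfl fun e _ => sum_congr rfl fun v _ => ?_
    unfold cw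
    rw [sum_filter]
    refine sum_congr rfl fun w _ => ?_
    rw [hd2 w, hD]
    split_ifs with hw
    · rfl
    · simp
  rw [hmain]
  have hexp : S3 K κ Q X s₃ s₄ (fun v w => D v * ((r w : ℂ) + Complex.I * (m w : ℂ)) *
        (th Q (dt v w) : ℂ)) =
      ((S3 K κ Q X s₃ s₄ (fun v w => a v * r w * th Q (dt v w)) : ℝ) : ℂ) +
      (((-1 : ℂ) * ((S3 K κ Q X s₃ s₄ (fun v w => b v * m w * th Q (dt v w)) : ℝ) : ℂ)) +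
      (Complex.I * ((S3 K κ Q X s₃ s₄ (fun v w => a v * m w * th Q (dt v w)) : ℝ) : ℂ) +
      Complex.I * ((S3 K κ Q X s₃ s₄ (fun v w => b v * r w * th Q (dt v w)) : ℝ) : ℂ))) := by
    rw [← S3_real, ← S3_real, ← S3_real, ← S3_real, ← S3_mul, ← S3_mul, ← S3_mul, ← S3_add,
      ← S3_add, ← S3_add]
    refine S3_congr fun v w => ?_
    rw [hDab v]
    push_cast
    linear_combination ((b v : ℂ) * (m w : ℂ) * (th Q (dt v w) : ℂ)) * Complex.I_sq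
  rw [hexp]
  have k1 : ‖((S3 K κ Q X s₃ s₄ (fun v w => a v * r w * th Q (dt v w)) : ℝ) : ℂ)‖ ≤ ε₃ := by
    rw [Complex.norm_real, hr]; exact hBr a ha1 ha2
  have k2 : ‖(-1 : ℂ) * ((S3 K κ Q X s₃ s₄ (fun v w => b v * m w * th Q (dt v w)) : ℝ) : ℂ)‖ ≤
      ε₃ := by
    rw [norm_mul, norm_neg, norm_one, one_mul, Complex.norm_real, hm]; exact hBi b hb1 hb2
  have k3 : ‖Complex.I * ((S3 K κ Q X s₃ s₄ (fun v w => a v * m w * th Q (dt v w)) : ℝ) : ℂ)‖ ≤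
      ε₃ := by
    rw [norm_mul, Complex.norm_I, one_mul, Complex.norm_real, hm]; exact hBi a ha1 ha2
  have k4 : ‖Complex.I * ((S3 K κ Q X s₃ s₄ (fun v w => b v * r w * th Q (dt v w)) : ℝ) : ℂ)‖ ≤
      ε₃ := by
    rw [norm_mul, Complex.norm_I, one_mul, Complex.norm_real, hr]; exact hBr b hb1 hb2
  calc _ ≤ _ := norm_add_le _ _
    _ ≤ ε₃ + (ε₃ + (ε₃ + ε₃)) := add_le_add k1 ((norm_add_le _ _).trans (add_le_add k2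
        ((norm_add_le _ _).trans (add_le_add k3 k4))))
    _ = 4 * ε₃ := by ring

open scoped Classical in
/-- the estimate for fixed `X` -/
theorem per_X2 (hp : S_PERX) {N : ℕ} {τ : ℂ} {F₁ F₂ : Gi → ℂ} (hPr : Pr N τ F₁ F₂) {q : ℕ}
    (hq : 1 ≤ q) {R : Gi → Gi → Prop} (hR : Rel q R) {K : ℕ} {κ : ℝ} {Q : ℕ}
    {s s₁ s₂ s₃ s₄ X ε₃ ε' : ℝ} (hs₁ : 0 < s₁) (hs₃ : 0 < s₃) (hs1 : s ≤ s₁) (hs3 : s ≤ s₃)
    (hK : 1 ≤ K) (hκ : 0 < κ) (hQ : 1 ≤ Q) (hqQ : q ≤ Q) (hX : 2 * (K * Q : ℝ) ≤ X)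
    (ϖ : ℕ → Gi) (rr : ℕ → ℤ) (hϖ : ∀ p ∈ PQ Q, nm (ϖ p) = p ∧ lat p (rr p) (ϖ p) ∧
      (p : ℤ) ∣ rr p ^ 2 + 1)
    (ζ₁ ζ₂ : ℕ × ℕ → ℕ → Tr (Lab N q) → ℕ × ℕ × ℕ × ℕ → ℝ)
    (hζ : ∀ c ∈ Cs q, ∀ e ∈ good K κ Q X, ∀ p ∈ PQ Q,
      (((ζ₁ c p (TT (lb2 hPr.cm₁ hPr.cm₂ hq s₁ s₂ s₃ s₄ X) X e) (res p e) : ℝ) : ℂ) +
        Complex.I * ((ζ₂ c p (TT (lb2 hPr.cm₁ hPr.cm₂ hq s₁ s₂ s₃ s₄ X) X e) (res p e) : ℝ) : ℂ) =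
      (((p : ℝ) + 1) / (2 * Q) : ℝ) * ∑ z ∈ cone X e.1 e.2, ∑ w ∈ cone X e.1 e.2,
        (if dt z w = p ∧ lat p (rr p) z then d1 R c (lb2 hPr.cm₁ hPr.cm₂ hq s₁ s₂ s₃ s₄ X z) *
          d2 c (lb2 hPr.cm₁ hPr.cm₂ hq s₁ s₂ s₃ s₄ X w) else 0)) ∧
      (((av p (ζ₁ c p) (TT (lb2 hPr.cm₁ hPr.cm₂ hq s₁ s₂ s₃ s₄ X) X e) : ℝ) : ℂ) +
        Complex.I * ((av p (ζ₂ c p) (TT (lb2 hPr.cm₁ hPr.cm₂ hq s₁ s₂ s₃ s₄ X) X e) : ℝ) : ℂ) =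
      (1 / (2 * (Q : ℝ)) : ℝ) * ∑ z ∈ cone X e.1 e.2, ∑ w ∈ cone X e.1 e.2,
        (if dt z w = p then d1 R c (lb2 hPr.cm₁ hPr.cm₂ hq s₁ s₂ s₃ s₄ X z) *
          d2 c (lb2 hPr.cm₁ hPr.cm₂ hq s₁ s₂ s₃ s₄ X w) else 0)))
    (hB : ∀ c ∈ Cs q, ∀ α : Gi → ℝ, (∀ z, |α z| ≤ 1) → (∀ z, α z ≠ 0 → s₁ * X < (nm z : ℝ)) →
      |∑ e ∈ good K κ Q X, ∑ v ∈ cone X e.1 e.2, ∑ w ∈ cw X s₃ s₄ e.1 e.2,
        α v * cl q (rp c) (fun z => (F₂ z).re) w * th Q (dt v w)| ≤ ε₃ * X * Q ∧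
      |∑ e ∈ good K κ Q X, ∑ v ∈ cone X e.1 e.2, ∑ w ∈ cw X s₃ s₄ e.1 e.2,
        α v * cl q (rp c) (fun z => (F₂ z).im) w * th Q (dt v w)| ≤ ε₃ * X * Q)
    (hε' : 0 ≤ ε')
    (hL : ∀ p ∈ PQ Q, ∀ π : Gi, nm π = p →
      (((dedge 0 1 (X / p)).filter (fun e => 0 < ip e.1 e.2 ∧ s * (X / p) < (nm e.1 : ℝ) ∧
        s * (X / p) < (nm e.2 : ℝ) ∧ ¬ InG K κ Q X π e)).card : ℝ) ≤ ε' * (X / p)) :
    ‖∑ p ∈ PQ Q, ((Real.log p * ((p : ℝ) + 1) : ℝ) : ℂ) *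
        AG (g2 F₁ F₂ R) s₁ s₂ s₃ s₄ (X / p)‖ ≤
      2 * Q * ∑ c ∈ Cs q, ∑ e ∈ edge 0 1 (X / (K * Q)),
        (|∑ p ∈ PQ Q, Real.log p * (ζ₁ c p (TT (lb2 hPr.cm₁ hPr.cm₂ hq s₁ s₂ s₃ s₄ X) X e) (res p e) -
          av p (ζ₁ c p) (TT (lb2 hPr.cm₁ hPr.cm₂ hq s₁ s₂ s₃ s₄ X) X e))| +
        |∑ p ∈ PQ Q, Real.log p * (ζ₂ c p (TT (lb2 hPr.cm₁ hPr.cm₂ hq s₁ s₂ s₃ s₄ X) X e) (res p e) -
          av p (ζ₂ c p) (TT (lb2 hPr.cm₁ hPr.cm₂ hq s₁ s₂ s₃ s₄ X) X e))|) +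
      (4 * (Cs q).card * ε₃ * X * Q + 2 * ε' * X * ∑ p ∈ PQ Q, Real.log p) := by
  have hKQ : (0 : ℝ) < K * Q := by
    have h1 : (1 : ℝ) ≤ K := by exact_mod_cast hK
    have h2 : (1 : ℝ) ≤ Q := by exact_mod_cast hQ
    positivity
  have hX0 : 0 ≤ X := le_trans (by positivity) hX
  obtain ⟨S, hS⟩ : ∃ S : ℕ × ℕ → ℕ → ℂ, S = fun (c : ℕ × ℕ) (p : ℕ) =>
      ∑ e ∈ (dedge 0 1 (X / p)).filter (InG K κ Q X (ϖ p)),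
        d1 R c (lb2 hPr.cm₁ hPr.cm₂ hq s₁ s₂ s₃ s₄ X (ϖ p * e.1)) *
          d2 c (lb2 hPr.cm₁ hPr.cm₂ hq s₁ s₂ s₃ s₄ X (ϖ p * e.2)) := ⟨_, rfl⟩
  -- each class
  have hc1 : ∀ c ∈ Cs q, ‖∑ p ∈ PQ Q, ((Real.log p * ((p : ℝ) + 1) : ℝ) : ℂ) * S c p‖ ≤
      2 * Q * ∑ e ∈ edge 0 1 (X / (K * Q)),
        (|∑ p ∈ PQ Q, Real.log p * (ζ₁ c p (TT (lb2 hPr.cm₁ hPr.cm₂ hq s₁ s₂ s₃ s₄ X) X e) (res p e) -
          av p (ζ₁ c p) (TT (lb2 hPr.cm₁ hPr.cm₂ hq s₁ s₂ s₃ s₄ X) X e))| +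
        |∑ p ∈ PQ Q, Real.log p * (ζ₂ c p (TT (lb2 hPr.cm₁ hPr.cm₂ hq s₁ s₂ s₃ s₄ X) X e) (res p e) -
          av p (ζ₂ c p) (TT (lb2 hPr.cm₁ hPr.cm₂ hq s₁ s₂ s₃ s₄ X) X e))|) +
      4 * (ε₃ * X * Q) := by
    intro c hc
    have h1 := hp K κ Q X (Lab N q) (d1 R c) (d2 c) (lb2 hPr.cm₁ hPr.cm₂ hq s₁ s₂ s₃ s₄ X) ϖ rr
      (ζ₁ c) (ζ₂ c) hK hκ hQ hX hϖ (hζ c hc)
    have h2 := bil hPr.cm₁ hPr.cm₂ hq R (K := K) (κ := κ) (Q := Q) (s₁ := s₁) (s₂ := s₂)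
      (s₃ := s₃) (s₄ := s₄) (X := X) c hc (fun α a1 a2 => (hB c hc α a1 a2).1)
      (fun α a1 a2 => (hB c hc α a1 a2).2)
    rw [hS]
    exact h1.trans (by linarith)
  -- the loss
  have hτ : ‖τ‖ = 1 := by
    obtain ⟨π, r, h, -, -⟩ := exists_pi (p := 5) (by norm_num) (by norm_num)
    exact norm_tau hPr (p := 5) (by norm_num) h
  have hloss : ‖∑ p ∈ PQ Q, ((Real.log p * ((p : ℝ) + 1) : ℝ) : ℂ) *
      (τ * AG (g2 F₁ F₂ R) s₁ s₂ s₃ s₄ (X / p) - ∑ c ∈ Cs q, S c p)‖ ≤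
      2 * ε' * X * ∑ p ∈ PQ Q, Real.log p := by
    rw [mul_sum]
    refine (norm_sum_le _ _).trans (sum_le_sum fun p hpm => ?_)
    have hpp := (PQ_mem hpm).2.2.1
    have hp0 : (0 : ℝ) < p := by exact_mod_cast hpp.pos
    have hp1 : (1 : ℝ) ≤ p := by exact_mod_cast hpp.one_lt.le
    have hcop : Nat.Coprime p q := by
      rw [Nat.Prime.coprime_iff_not_dvd hpp]
      intro hd
      have h1 := Nat.le_of_dvd (by omega) hd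
      have h2 := (PQ_mem hpm).1
      omega
    have h1 := AG_split hPr hq hR hpp hcop (hϖ p hpm).1 (s := s) (s₁ := s₁) (s₂ := s₂) (s₃ := s₃)
      (s₄ := s₄) (X := X) (by positivity) (by positivity) (mul_le_mul_of_nonneg_right hs1 hX0)
      (mul_le_mul_of_nonneg_right hs3 hX0) (fun e he => InG_ip hKQ hX he)
      (hL p hpm _ (hϖ p hpm).1)
    rw [norm_mul, Complex.norm_real, Real.norm_eq_abs,
      abs_of_nonneg (mul_nonneg (log_nonneg_PQ hpm) (by positivity))]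
    have h1' : ‖τ * AG (g2 F₁ F₂ R) s₁ s₂ s₃ s₄ (X / p) - ∑ c ∈ Cs q, S c p‖ ≤ ε' * (X / p) := by
      rw [hS]
      exact h1
    calc Real.log p * ((p : ℝ) + 1) * ‖τ * AG (g2 F₁ F₂ R) s₁ s₂ s₃ s₄ (X / p) -
          ∑ c ∈ Cs q, S c p‖ ≤ Real.log p * ((p : ℝ) + 1) * (ε' * (X / p)) :=
          mul_le_mul_of_nonneg_left h1' (mul_nonneg (log_nonneg_PQ hpm) (by positivity))
      _ = Real.log p * ε' * X * (((p : ℝ) + 1) / p) := by ring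
      _ ≤ Real.log p * ε' * X * 2 := by
          refine mul_le_mul_of_nonneg_left ?_
            (mul_nonneg (mul_nonneg (log_nonneg_PQ hpm) hε') hX0)
          rw [div_le_iff₀ hp0]
          linarith
      _ = 2 * ε' * X * Real.log p := by ring
  have hdec : τ * ∑ p ∈ PQ Q, ((Real.log p * ((p : ℝ) + 1) : ℝ) : ℂ) *
        AG (g2 F₁ F₂ R) s₁ s₂ s₃ s₄ (X / p) =
      ∑ p ∈ PQ Q, ((Real.log p * ((p : ℝ) + 1) : ℝ) : ℂ) *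
        (τ * AG (g2 F₁ F₂ R) s₁ s₂ s₃ s₄ (X / p) - ∑ c ∈ Cs q, S c p) +
      ∑ c ∈ Cs q, ∑ p ∈ PQ Q, ((Real.log p * ((p : ℝ) + 1) : ℝ) : ℂ) * S c p := by
    rw [sum_comm, ← sum_add_distrib, mul_sum]
    refine sum_congr rfl fun p _ => ?_
    rw [← mul_sum]
    ring
  have hnorm : ‖∑ p ∈ PQ Q, ((Real.log p * ((p : ℝ) + 1) : ℝ) : ℂ) *
        AG (g2 F₁ F₂ R) s₁ s₂ s₃ s₄ (X / p)‖ =
      ‖τ * ∑ p ∈ PQ Q, ((Real.log p * ((p : ℝ) + 1) : ℝ) : ℂ) *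
        AG (g2 F₁ F₂ R) s₁ s₂ s₃ s₄ (X / p)‖ := by rw [norm_mul, hτ, one_mul]
  rw [hnorm, hdec]
  refine (norm_add_le _ _).trans ?_
  have hcs := (norm_sum_le (Cs q) (fun c => ∑ p ∈ PQ Q,
    ((Real.log p * ((p : ℝ) + 1) : ℝ) : ℂ) * S c p)).trans (sum_le_sum hc1)
  rw [sum_add_distrib, sum_const, nsmul_eq_mul, ← mul_sum] at hcs
  have e : ((Cs q).card : ℝ) * (4 * (ε₃ * X * Q)) = 4 * (Cs q).card * ε₃ * X * Q := by ring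
  rw [e] at hcs
  linarith

end Pool.Agent.W214.EX
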